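import Pool.Agent.helper58.CRO.SpecE

open scoped Manifold ContDiff Topology ENNReal
open MeasureTheory Set Bundle Filter

noncomputable section

namespace Pool.Agent.CRO

theorem SVK : SVK_stmt := by
  intro n
  unfold sphereVol kap
  rw [EuclideanSpace.volume_ball, Fintype.card_fin, ENNReal.ofReal_one, one_pow, one_mul]
  have hz : (0 : ℝ) < ((n : ℝ) + 1) / 2 := by positivity
  have hG : 0 < Real.Gamma (((n : ℝ) + 1) / 2) := Real.Gamma_pos_of_pos hz
  have h1 : Real.Gamma (((n + 1 : ℕ) : ℝ) / 2 + 1) =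
      (((n : ℝ) + 1) / 2) * Real.Gamma (((n : ℝ) + 1) / 2) := by
    rw [Nat.cast_add, Nat.cast_one, Real.Gamma_add_one hz.ne']
  have h2 : √Real.pi ^ (n + 1) = Real.pi ^ (((n : ℝ) + 1) / 2) := by
    rw [Real.sqrt_eq_rpow, ← Real.rpow_natCast, ← Real.rpow_mul Real.pi_pos.le]
    congr 1
    push_cast
    ring
  rw [h1, h2, ENNReal.toReal_ofReal (by positivity)]
  have hn : (0 : ℝ) < (n : ℝ) + 1 := by positivity
  field_simp

end Pool.Agent.CRO
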