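import Pool.Agent.helper58.CRO.SpecC

open scoped Manifold ContDiff Topology ENNReal
open MeasureTheory Set

noncomputable section

namespace Pool.Agent.CRO

theorem SWP_w (g : ℝ → ℝ) (hg : Antitone g) (m M : ℝ) (hm : 0 < m)
    (hb : ∀ r, m ≤ g r ∧ g r ≤ M) (η a : ℝ) (hη : 0 < η) (ha : 0 < a) :
    ∃ w : ℝ → ℝ, Continuous w ∧ (∀ u, 0 < w u) ∧ (∀ u, w (-u) = w u) ∧
      (∀ u, w u ≤ g (|u| + η)) ∧
      (∫ r in (0 : ℝ)..(a + 2 * η), g r) - 2 * η * M ≤ ∫ u in (0 : ℝ)..a, w u := by
  have hii : ∀ p q : ℝ, IntervalIntegrable g volume p q := fun p q => hg.intervalIntegrable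
  have hcont : Continuous (fun x => ∫ r in (0 : ℝ)..x, g r) :=
    intervalIntegral.continuous_primitive hii 0
  -- comparison with constants
  have hup : ∀ p q c : ℝ, p ≤ q → (∀ r ∈ Icc p q, g r ≤ c) → ∫ r in p..q, g r ≤ (q - p) * c := by
    intro p q c hpq h
    have h1 := intervalIntegral.integral_mono_on hpq (hii p q)
      (intervalIntegrable_const (c := c)) h
    rwa [intervalIntegral.integral_const, smul_eq_mul] at h1
  have hlo : ∀ p q c : ℝ, p ≤ q → (∀ r ∈ Icc p q, c ≤ g r) → (q - p) * c ≤ ∫ r in p..q, g r := by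
    intro p q c hpq h
    have h1 := intervalIntegral.integral_mono_on hpq
      (intervalIntegrable_const (c := c)) (hii p q) h
    rwa [intervalIntegral.integral_const, smul_eq_mul] at h1
  set w : ℝ → ℝ := fun u =>
    η⁻¹ * ((∫ r in (0 : ℝ)..(|u| + 2 * η), g r) - ∫ r in (0 : ℝ)..(|u| + η), g r) with hw
  have hw2 : ∀ u, w u = η⁻¹ * ∫ r in (|u| + η)..(|u| + 2 * η), g r := by
    intro u
    rw [hw]
    show η⁻¹ * _ = η⁻¹ * _
    rw [intervalIntegral.integral_interval_sub_left (hii _ _) (hii _ _)]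
  have hlen : ∀ u : ℝ, |u| + 2 * η - (|u| + η) = η := fun u => by ring
  have hle : ∀ u : ℝ, |u| + η ≤ |u| + 2 * η := fun u => by linarith
  have hwlo : ∀ u, g (|u| + 2 * η) ≤ w u := by
    intro u
    have h1 := hlo (|u| + η) (|u| + 2 * η) (g (|u| + 2 * η)) (hle u)
      (fun r hr => hg hr.2)
    rw [hlen] at h1
    rw [hw2, le_inv_mul_iff₀ hη]
    exact h1
  have hwup : ∀ u, w u ≤ g (|u| + η) := by
    intro u
    have h1 := hup (|u| + η) (|u| + 2 * η) (g (|u| + η)) (hle u)
      (fun r hr => hg hr.1)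
    rw [hlen] at h1
    rw [hw2, inv_mul_le_iff₀ hη]
    exact h1
  have hwc : Continuous w := by
    rw [hw]
    have c1 : Continuous (fun u : ℝ => |u| + 2 * η) := continuous_abs.add continuous_const
    have c2 : Continuous (fun u : ℝ => |u| + η) := continuous_abs.add continuous_const
    exact continuous_const.mul ((hcont.comp c1).sub (hcont.comp c2))
  refine ⟨w, hwc, fun u => lt_of_lt_of_le hm (le_trans (hb _).1 (hwlo u)), ?_, hwup, ?_⟩
  · intro u
    rw [hw]
    simp only [abs_neg]
  · have h1 : ∫ u in (0 : ℝ)..a, g (u + 2 * η) ≤ ∫ u in (0 : ℝ)..a, w u := by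
      apply intervalIntegral.integral_mono_on ha.le
      · have h2 : Antitone (fun u => g (u + 2 * η)) := fun x y hxy => hg (by linarith)
        exact h2.intervalIntegrable
      · exact hwc.intervalIntegrable _ _
      · intro u hu
        have h3 := hwlo u
        rwa [abs_of_nonneg hu.1] at h3
    rw [intervalIntegral.integral_comp_add_right (fun u => g u) (2 * η), zero_add] at h1
    have h2 : (∫ r in (0 : ℝ)..(a + 2 * η), g r) - ∫ r in (0 : ℝ)..(2 * η), g r =
        ∫ r in (2 * η)..(a + 2 * η), g r :=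
      intervalIntegral.integral_interval_sub_left (hii _ _) (hii _ _)
    have h3 := hup 0 (2 * η) M (by linarith) (fun r _ => (hb r).2)
    rw [sub_zero] at h3
    linarith

theorem SWP (h1 : STF_stmt) : SWP_stmt := by
  intro ε d R N k lam hε hε1 hd hd1 hR hk hkN hlk hmono hW hPH
  have hNpos : (0 : ℝ) < N := by
    have : 0 < N := by omega
    exact_mod_cast this
  have hpi := Real.pi_pos
  have hlamk : 0 < lam k := lt_of_lt_of_le (by positivity) hlk
  have hge : ∀ j, k ≤ j → j ≤ N → lam k ≤ lam j := by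
    intro j hj
    induction j, hj using Nat.le_induction with
    | base => intro _; exact le_refl _
    | succ j hj ih =>
      intro hjN
      exact le_trans (ih (by omega)) (hmono j hj (by omega))
  have hlampos : ∀ j, k ≤ j → j ≤ N → 0 < lam j := fun j hj hjN =>
    lt_of_lt_of_le hlamk (hge j hj hjN)
  set s : ℝ := (1 - d) * lam k with hs
  have hspos : 0 < s := mul_pos (by linarith) hlamk
  have hsle : s ≤ lam k := by
    rw [hs]
    nlinarith
  set h : ℝ := R / N with hh
  have hhpos : 0 < h := div_pos hR hNpos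
  set c : ℕ → ℝ := fun j => Real.sqrt (1 - (s / lam j) ^ 2) with hc
  have hx : ∀ j, k ≤ j → j ≤ N → 0 ≤ s / lam j ∧ s / lam j ≤ 1 - d := by
    intro j hj hjN
    have hl := hlampos j hj hjN
    refine ⟨by positivity, ?_⟩
    rw [div_le_iff₀ hl, hs]
    exact mul_le_mul_of_nonneg_left (hge j hj hjN) (by linarith)
  have hcsq : ∀ j, k ≤ j → j ≤ N → c j ^ 2 = 1 - (s / lam j) ^ 2 := by
    intro j hj hjN
    obtain ⟨x1, x2⟩ := hx j hj hjN
    exact Real.sq_sqrt (by nlinarith)
  have hcpos : ∀ j, k ≤ j → j ≤ N → 0 < c j := by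
    intro j hj hjN
    obtain ⟨x1, x2⟩ := hx j hj hjN
    exact Real.sqrt_pos.2 (by nlinarith)
  have hcle : ∀ j, k ≤ j → j ≤ N → c j ≤ 1 := by
    intro j hj hjN
    obtain ⟨x1, x2⟩ := hx j hj hjN
    rw [hc]
    show Real.sqrt _ ≤ 1
    calc Real.sqrt (1 - (s / lam j) ^ 2) ≤ Real.sqrt 1 :=
          Real.sqrt_le_sqrt (by nlinarith [sq_nonneg (s / lam j)])
      _ = 1 := Real.sqrt_one
  set t : ℕ → ℝ := fun j => h / c j with ht
  set v : ℕ → ℝ := fun j => s / lam j ^ 2 with hv
  have htpos : ∀ j, k ≤ j → j ≤ N → 0 < t j := fun j hj hjN => div_pos hhpos (hcpos j hj hjN)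
  have hvpos : ∀ j, k ≤ j → j ≤ N → 0 < v j := fun j hj hjN =>
    div_pos hspos (pow_pos (hlampos j hj hjN) 2)
  obtain ⟨g, hg, hgb, hgj, hgint⟩ := h1 N k t v hkN
    (fun j hj hjN => ⟨htpos j hj.le hjN, hvpos j hj.le hjN⟩)
    (fun j hj hjN => by
      have l1 := hlampos j hj.le hjN.le
      have l2 := hmono j hj.le hjN
      show s / lam (j + 1) ^ 2 ≤ s / lam j ^ 2
      exact div_le_div_of_nonneg_left hspos.le (pow_pos l1 2) (pow_le_pow_left₀ l1.le l2 2))
  set θ : ℝ := ∑ i ∈ Finset.Ioc k N, t i with hθ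
  have hii : ∀ p q : ℝ, IntervalIntegrable g volume p q := fun p q => hg.intervalIntegrable
  -- the integral is `PH`
  have hPH2 : ∑ i ∈ Finset.Ioc k N, t i * v i = PH N h d lam k := by
    unfold PH
    apply Finset.sum_congr rfl
    intro j hj
    rw [Finset.mem_Ioc] at hj
    have l1 := hlampos j hj.1.le hj.2
    have l2 := hcpos j hj.1.le hj.2
    show h / c j * (s / lam j ^ 2) = h * s / (lam j ^ 2 * c j)
    field_simp
  -- the complementary integral is `WW`
  have hWW2 : θ - s * ∑ i ∈ Finset.Ioc k N, t i * v i = WW N h d lam k := by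
    unfold WW
    rw [hθ, Finset.mul_sum, ← Finset.sum_sub_distrib]
    apply Finset.sum_congr rfl
    intro j hj
    rw [Finset.mem_Ioc] at hj
    have l1 := hlampos j hj.1.le hj.2
    have l2 := hcpos j hj.1.le hj.2
    have l3 := hcsq j hj.1.le hj.2
    show t j - s * (t j * v j) = h * c j
    have l4 : s * v j = 1 - c j ^ 2 := by
      rw [l3]
      show s * (s / lam j ^ 2) = 1 - (1 - (s / lam j) ^ 2)
      field_simp
      ring
    have l5 : t j * c j = h := div_mul_cancel₀ h l2.ne'
    calc t j - s * (t j * v j) = t j * (1 - s * v j) := by ring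
      _ = t j * c j * c j := by rw [l4]; ring
      _ = h * c j := by rw [l5]
  have hvk1 : v (k + 1) ≤ 1 / lam k := by
    have l1 := hge (k + 1) (by omega) (by omega)
    show s / lam (k + 1) ^ 2 ≤ 1 / lam k
    rw [div_le_div_iff₀ (pow_pos (hlampos (k + 1) (by omega) (by omega)) 2) hlamk, one_mul]
    nlinarith
  have hsg : ∀ r, s * g r ≤ 1 := by
    intro r
    have l1 := (hgb r).2
    have l2 : g r ≤ 1 / lam k := le_trans l1 hvk1
    calc s * g r ≤ lam k * (1 / lam k) := by
          apply mul_le_mul hsle l2 (le_trans (hvpos N hkN.le le_rfl).le (hgb r).1) hlamk.le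
      _ = 1 := mul_one_div_cancel hlamk.ne'
  have hθh : h ≤ θ := by
    have l1 : t (k + 1) ≤ θ := by
      rw [hθ]
      apply Finset.single_le_sum (f := t)
      · intro i hi
        rw [Finset.mem_Ioc] at hi
        exact (htpos i hi.1.le hi.2).le
      · rw [Finset.mem_Ioc]
        omega
    have l2 : h ≤ t (k + 1) := by
      show h ≤ h / c (k + 1)
      rw [le_div_iff₀ (hcpos (k + 1) (by omega) (by omega))]
      have l3 := hcle (k + 1) (by omega) (by omega)
      nlinarith
    exact le_trans l2 l1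
  set a0 : ℝ := min θ R with ha0
  have hI0 : Real.pi / 2 * (1 + ε / 2) ≤ ∫ r in (0 : ℝ)..a0, g r := by
    rcases le_total θ R with hle | hle
    · rw [ha0, min_eq_left hle, hgint, hPH2]
      exact hPH.le
    · rw [ha0, min_eq_right hle]
      have i1 : IntervalIntegrable (fun r => 1 - s * g r) volume 0 R :=
        intervalIntegrable_const.sub ((hii 0 R).const_mul s)
      have i2 : IntervalIntegrable (fun r => 1 - s * g r) volume R θ :=
        intervalIntegrable_const.sub ((hii R θ).const_mul s)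
      have e1 : ∫ r in (0 : ℝ)..θ, (1 - s * g r) = WW N h d lam k := by
        rw [intervalIntegral.integral_sub intervalIntegrable_const ((hii 0 θ).const_mul s),
          intervalIntegral.integral_const, intervalIntegral.integral_const_mul, hgint, ← hWW2,
          sub_zero, smul_eq_mul, mul_one]
      have e2 : ∫ r in (0 : ℝ)..R, (1 - s * g r) = R - s * ∫ r in (0 : ℝ)..R, g r := by
        rw [intervalIntegral.integral_sub intervalIntegrable_const ((hii 0 R).const_mul s),
          intervalIntegral.integral_const, intervalIntegral.integral_const_mul,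
          sub_zero, smul_eq_mul, mul_one]
      have e3 : 0 ≤ ∫ r in R..θ, (1 - s * g r) := by
        apply intervalIntegral.integral_nonneg hle
        intro u _
        have := hsg u
        linarith
      have e4 := intervalIntegral.integral_add_adjacent_intervals i1 i2
      rw [e1, e2] at e4
      have e5 : s * (Real.pi / 2 * (1 + ε / 2)) < s * ∫ r in (0 : ℝ)..R, g r := by
        nlinarith
      exact (lt_of_mul_lt_mul_left e5 hspos.le).le
  set η : ℝ := ε * R / (100 * N) with hη
  have hηpos : 0 < η := by positivity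
  have hη2 : 2 * η < h := by
    rw [hη, hh, lt_div_iff₀ hNpos]
    have : 2 * (ε * R / (100 * N)) * N = ε * R / 50 := by
      field_simp
      ring
    rw [this]
    nlinarith
  have ha0h : h ≤ a0 := by
    rw [ha0]
    apply le_min hθh
    rw [hh, div_le_iff₀ hNpos]
    have : (1 : ℝ) ≤ N := by exact_mod_cast (by omega : 1 ≤ N)
    nlinarith
  have ha : 0 < a0 - 2 * η := by linarith
  obtain ⟨w, w1, w2, w3, w4, w5⟩ := SWP_w g hg (v N) (v (k + 1)) (hvpos N hkN.le le_rfl) hgb η
    (a0 - 2 * η) hηpos ha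
  refine ⟨a0 - 2 * η, w, ha, ?_, w1, w2, w3, ?_, ?_⟩
  · have : a0 ≤ R := min_le_right _ _
    linarith
  · rw [sub_add_cancel] at w5
    have l1 : 2 * η * v (k + 1) ≤ 2 * η * (4 * Real.pi * N / R) := by
      apply mul_le_mul_of_nonneg_left _ (by linarith)
      apply le_trans hvk1
      rw [div_le_div_iff₀ hlamk hR]
      rw [div_le_iff₀ (by positivity)] at hlk
      nlinarith
    have l2 : 2 * η * (4 * Real.pi * N / R) = 8 / 100 * (Real.pi * ε) := by
      rw [hη]
      field_simp
      ring
    have l3 : 0 < Real.pi * ε := mul_pos hpi hε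
    nlinarith
  · intro u hu
    have l1 : |u| + η < θ := by
      have : a0 ≤ θ := min_le_left _ _
      linarith
    obtain ⟨j, j1, j2, j3, j4⟩ := hgj (|u| + η) (by positivity) l1
    refine ⟨j, j1, j2, ?_, ?_⟩
    · have : |u| + η < ∑ i ∈ Finset.Ioc k j, t i := j3
      linarith
    · apply le_trans (w4 u)
      rw [j4]
      exact div_le_div_of_nonneg_right hsle (pow_pos (hlampos j j1.le j2) 2).le

end Pool.Agent.CRO
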